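import Pool.Agent.Helper56.RC.StF

/-!
# Project RC, module LOWA: the scalar inequality of option A
-/

namespace Pool.Agent.Helper55.RC

open Helper56.RC

/-- two-sided bound of a cosine from the table -/
theorem cosK (h : StTrg) (k c : ℤ) (hc : cT k = c) (y : ℝ) (hy : y = k * Real.pi / 120) :
    (c : ℝ) / 10 ^ 6 - 1 / 10 ^ 5 ≤ Real.cos y ∧ Real.cos y ≤ (c : ℝ) / 10 ^ 6 + 1 / 10 ^ 5 := by
  have := h k
  rw [← hy, hc, abs_le] at this
  constructor <;> linarith [this.1, this.2]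

/-- two-sided bound of a sine from the table -/
theorem sinK (h : StTrg) (k c : ℤ) (hc : cT (k - 60) = c) (y : ℝ) (hy : y = k * Real.pi / 120) :
    (c : ℝ) / 10 ^ 6 - 1 / 10 ^ 5 ≤ Real.sin y ∧ Real.sin y ≤ (c : ℝ) / 10 ^ 6 + 1 / 10 ^ 5 := by
  rw [← Real.cos_sub_pi_div_two]
  refine cosK h (k - 60) c hc _ ?_
  rw [hy]; push_cast; ring

theorem abs_cosK (h : StTrg) (k c : ℤ) (hc : cT k = c) (y : ℝ) (hy : y = k * Real.pi / 120) :
    |Real.cos y| ≤ |(c : ℝ)| / 10 ^ 6 + 1 / 10 ^ 5 := by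
  obtain ⟨h1, h2⟩ := cosK h k c hc y hy
  rw [abs_le]
  constructor
  · have := neg_abs_le (c : ℝ)
    have h3 : -(|(c : ℝ)| / 10 ^ 6) ≤ (c : ℝ) / 10 ^ 6 := by
      rw [← neg_div]; exact div_le_div_of_nonneg_right this (by norm_num)
    linarith
  · have := le_abs_self (c : ℝ)
    have h3 : (c : ℝ) / 10 ^ 6 ≤ |(c : ℝ)| / 10 ^ 6 :=
      div_le_div_of_nonneg_right this (by norm_num)
    linarith

theorem abs_sinK (h : StTrg) (k c : ℤ) (hc : cT (k - 60) = c) (y : ℝ)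
    (hy : y = k * Real.pi / 120) : |Real.sin y| ≤ |(c : ℝ)| / 10 ^ 6 + 1 / 10 ^ 5 := by
  rw [← Real.cos_sub_pi_div_two]
  refine abs_cosK h (k - 60) c hc _ ?_
  rw [hy]; push_cast; ring

/-- bound of `|KK|` from the table -/
theorem KKb (h : StTrg) (d ρ : ℝ) (j k s c e : ℤ) (U : ℝ) (hk : cT k = c) (hs : cT (s - 60) = e)
    (h1 : Real.pi * (1 + (j : ℝ)) / 3 + (j : ℝ) * d = k * Real.pi / 120)
    (h2 : (j : ℝ) * ρ / 2 = s * Real.pi / 120)
    (hU : (|(c : ℝ)| / 10 ^ 6 + 1 / 10 ^ 5) * (|4 / (j : ℝ)| * (|(e : ℝ)| / 10 ^ 6 + 1 / 10 ^ 5)) ≤ U) :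
    |KK d ρ j| ≤ U := by
  unfold KK RR
  rw [abs_mul, abs_mul]
  have a1 := abs_cosK h k c hk _ h1
  have a2 := abs_sinK h s e hs _ h2
  refine le_trans ?_ hU
  gcongr

/-- products of two intervals (the form needed for `cos * cos`) -/
theorem mul_bd {x y a b ε : ℝ} (hx : |x - a| ≤ ε) (hy : |y - b| ≤ ε) (ha : |a| ≤ 1) (hb : |b| ≤ 1)
    (hε : 0 ≤ ε) (hε' : ε ≤ 1 / 10) : |x * y - a * b| ≤ 2.1 * ε := by
  have e1 : x * y - a * b = (x - a) * (y - b) + (x - a) * b + a * (y - b) := by ring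
  rw [e1]
  calc |(x - a) * (y - b) + (x - a) * b + a * (y - b)|
      ≤ |(x - a) * (y - b)| + |(x - a) * b| + |a * (y - b)| := by
        exact (abs_add_le _ _).trans (add_le_add (abs_add_le _ _) le_rfl)
    _ = |x - a| * |y - b| + |x - a| * |b| + |a| * |y - b| := by simp only [abs_mul]
    _ ≤ ε * ε + ε * 1 + 1 * ε := by gcongr
    _ ≤ 2.1 * ε := by nlinarith

/-- product of two table values -/
theorem cc (h : StTrg) (k l c e : ℤ) (hk : cT k = c) (hl : cT l = e) (y z : ℝ)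
    (hy : y = k * Real.pi / 120) (hz : z = l * Real.pi / 120) (hc : |(c : ℝ) / 10 ^ 6| ≤ 1)
    (he : |(e : ℝ) / 10 ^ 6| ≤ 1) :
    |Real.cos y * Real.cos z - (c : ℝ) / 10 ^ 6 * ((e : ℝ) / 10 ^ 6)| ≤ 21 / 10 ^ 6 := by
  have a1 := h k
  have a2 := h l
  rw [← hy, hk] at a1
  rw [← hz, hl] at a2
  have := mul_bd a1 a2 hc he (by norm_num) (by norm_num)
  refine this.trans (by norm_num)

theorem cs (h : StTrg) (k l c e : ℤ) (hk : cT k = c) (hl : cT (l - 60) = e) (y z : ℝ)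
    (hy : y = k * Real.pi / 120) (hz : z = l * Real.pi / 120) (hc : |(c : ℝ) / 10 ^ 6| ≤ 1)
    (he : |(e : ℝ) / 10 ^ 6| ≤ 1) :
    |Real.cos y * Real.sin z - (c : ℝ) / 10 ^ 6 * ((e : ℝ) / 10 ^ 6)| ≤ 21 / 10 ^ 6 := by
  rw [← Real.cos_sub_pi_div_two z]
  refine cc h k (l - 60) c e hk hl y _ hy ?_ hc he
  rw [hz]; push_cast; ring

theorem sqrt3_bd : 1.73205 ≤ Real.sqrt 3 ∧ Real.sqrt 3 ≤ 1.73206 := by
  constructor
  · apply Real.le_sqrt_of_sq_le; norm_num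
  · rw [Real.sqrt_le_left (by norm_num)]; norm_num

/-- the quadratic polynomial of the first two cases -/
theorem polyA1 (x a z2 y : ℝ) (hx : 0 ≤ x) (hx' : x ≤ 29 / 100) (ha : a ^ 2 ≤ z2) :
    0 ≤ 0.036 + 1.7065 * (47 / 100 * (x ^ 2 + z2 + x * a)) + 0.5177 * z2 - 1.4928 * x ^ 2
      + 0.1564 * x - 0.19476 * a - 0.0001 * (1 / 2 + a ^ 2 / 2) + 6.6 * y ^ 2 - 0.328 * x * y := by
  nlinarith [mul_nonneg hx (sub_nonneg.2 hx'), sq_nonneg (2.63941 * a - 0.19476 + 0.802055 * x),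
      sq_nonneg (13.2 * y - 0.328 * x)]

theorem polyA2 (x a z2 y : ℝ) (hx : 0 ≤ x) (hx' : x ≤ 29 / 100) (ha : a ^ 2 ≤ z2) :
    0 ≤ 0.036 + 1.7065 * (47 / 100 * (x ^ 2 + z2 + x * a)) + 0.5177 * z2 - 1.4928 * x ^ 2
      + 0.1564 * x - 0.19476 * a - 0.0001 * (1 / 2 + a ^ 2 / 2) + 7.1242 * y ^ 2
      - (0.1364 + 0.328 * x) * y := by
  nlinarith [mul_nonneg hx (sub_nonneg.2 hx'), sq_nonneg (2.63941 * a - 0.19476 + 0.802055 * x),
      sq_nonneg (14.2484 * y - 0.1364 - 0.328 * x)]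

theorem polyA3 (x a z2 y : ℝ) (hx : 0 ≤ x) (hx' : x ≤ 29 / 100) (ha : a ^ 2 ≤ z2) :
    0 ≤ 0.036 + 0.0034 + 1.7065 * (47 / 100 * (x ^ 2 + z2 + x * a)) + 0.5177 * z2 - 1.4928 * x ^ 2
      + 0.1564 * x - 0.19476 * a - 0.0001 * (1 / 2 + a ^ 2 / 2) + 7.1242 * y ^ 2
      - (0.1364 + 0.4157 + 0.328 * x) * y := by
  nlinarith [mul_nonneg hx (sub_nonneg.2 hx'), sq_nonneg (2.63941 * a - 0.19476 + 0.802055 * x),
      sq_nonneg (14.2484 * y - 0.5521 - 0.328 * x)]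

/-- the polynomial core of option A -/
theorem coreA (c0 FS F1 Z X A B Y Q L K x a z2 y0 x1 q qh : ℝ)
    (hc0 : 0.0371 ≤ c0) (hFS : 1.7565 ≤ FS) (hF1 : F1 ≤ 2.0785) (hF1' : 0 ≤ F1)
    (hZ : 0.5177 ≤ Z) (hX : X ≤ 1.4928) (hA : 0.1564 ≤ A) (hB : |B + 0.19476| ≤ 0.0001)
    (hY : 9.916 ≤ Y) (hQ : Q ≤ 2.7918) (hL : 0 ≤ L) (hL' : L ≤ 0.1364) (hK : K ≤ 0.328)
    (hx : 0 ≤ x) (hx' : x ≤ 29 / 100) (ha : a ^ 2 ≤ z2) (hx1 : |x1| ≤ y0)
    (hqh : 0 ≤ qh) (hq : q = 47 / 100 * (x ^ 2 + z2 + x * a)) (hw : q + qh ≤ 1 / 5) :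
    0 ≤ c0 + FS * q - 33 / 200 * q ^ 2 + 1 / 20 * qh - 33 / 200 * qh * (2 * q + qh)
      + Z * z2 - X * x ^ 2 + A * x + B * a - 1 / 1000 + Y * y0 ^ 2 - Q * x1 ^ 2
      - (if 0 ≤ x1 then 52 / 100 * x1 ^ 2 else 0) + (L + F1 * (q + qh)) * x1 - K * x * y0 := by
  have hq0 : 0 ≤ q := by
    rw [hq]; nlinarith [sq_nonneg (x + a / 2), sq_nonneg a]
  have hz0 : 0 ≤ z2 := le_trans (sq_nonneg a) ha
  have hy0 : 0 ≤ y0 := le_trans (abs_nonneg _) hx1
  have hsq : x1 ^ 2 ≤ y0 ^ 2 := by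
    have := abs_le.1 hx1
    nlinarith [this.1, this.2]
  have e1 : 1.7565 * q ≤ FS * q := mul_le_mul_of_nonneg_right hFS hq0
  have e2 : 0.5177 * z2 ≤ Z * z2 := mul_le_mul_of_nonneg_right hZ hz0
  have e3 : X * x ^ 2 ≤ 1.4928 * x ^ 2 := mul_le_mul_of_nonneg_right hX (sq_nonneg x)
  have e4 : 0.1564 * x ≤ A * x := mul_le_mul_of_nonneg_right hA hx
  have e5 : 9.916 * y0 ^ 2 ≤ Y * y0 ^ 2 := mul_le_mul_of_nonneg_right hY (sq_nonneg _)
  have e6 : Q * x1 ^ 2 ≤ 2.7918 * x1 ^ 2 := mul_le_mul_of_nonneg_right hQ (sq_nonneg _)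
  have e7 : K * x * y0 ≤ 0.328 * x * y0 := by
    have : 0 ≤ x * y0 := by positivity
    nlinarith
  have e8 : -(0.19476 * a) - 0.0001 * (1 / 2 + a ^ 2 / 2) ≤ B * a := by
    have h1 : -((B + 0.19476) * a) ≤ 0.0001 * |a| := by
      calc -((B + 0.19476) * a) ≤ |(B + 0.19476) * a| := neg_le_abs _
        _ = |B + 0.19476| * |a| := abs_mul _ _
        _ ≤ 0.0001 * |a| := by gcongr
    have h2 : |a| ≤ 1 / 2 + a ^ 2 / 2 := by
      have := sq_abs a
      nlinarith [sq_nonneg (|a| - 1)]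
    nlinarith
  obtain ⟨w, hwd⟩ : ∃ w, w = q + qh := ⟨_, rfl⟩
  rw [← hwd] at hw ⊢
  have hw0 : 0 ≤ w := by rw [hwd]; positivity
  have hqw : q ^ 2 + qh * (2 * q + qh) = w ^ 2 := by rw [hwd]; ring
  have hqh' : qh = w - q := by linarith
  rcases le_or_gt 0 x1 with h0 | h0
  · rw [if_pos h0]
    have e9 : 0 ≤ (L + F1 * w) * x1 := by positivity
    have e10 : 0 ≤ 1 / 20 * w - 33 / 200 * w ^ 2 := by nlinarith
    have key := polyA1 x a z2 y0 hx hx' ha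
    rw [← hq] at key
    linarith only [hc0, hsq, e1, e2, e3, e4, e5, e6, e7, e8, hqw, hqh', e9, e10, key,
      sq_nonneg y0]
  · rw [if_neg (not_le.2 h0)]
    have hs : -x1 ≤ y0 := by have := neg_abs_le x1; linarith
    have e9 : -((0.1364 + 2.0785 * w) * y0) ≤ (L + F1 * w) * x1 := by
      have h1 : L + F1 * w ≤ 0.1364 + 2.0785 * w := by nlinarith
      have h2 : 0 ≤ L + F1 * w := by positivity
      have h3 : (L + F1 * w) * (-x1) ≤ (0.1364 + 2.0785 * w) * y0 := by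
        apply mul_le_mul h1 hs (by linarith) (by positivity)
      linarith
    rcases le_or_gt (2.0785 * y0) 0.017 with h1 | h1
    · have e10 : 0 ≤ 1 / 20 * w - 33 / 200 * w ^ 2 - 2.0785 * w * y0 := by
        have e11 : 0 ≤ w * (1 / 20 - 33 / 200 * w - 2.0785 * y0) :=
          mul_nonneg hw0 (by linarith)
        linarith
      have key := polyA2 x a z2 y0 hx hx' ha
      rw [← hq] at key
      linarith only [hc0, hsq, e1, e2, e3, e4, e5, e6, e7, e8, hqw, hqh', e9, e10, key]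
    · have e10 : 0.0034 - 0.4157 * y0 ≤ 1 / 20 * w - 33 / 200 * w ^ 2 - 2.0785 * w * y0 := by
        have e11 := mul_nonneg hw0 (sub_nonneg.2 hw)
        have e12 := mul_nonneg (sub_nonneg.2 hw) (sub_nonneg.2 h1.le)
        linarith
      have key := polyA3 x a z2 y0 hx hx' ha
      rw [← hq] at key
      linarith only [hc0, hsq, e1, e2, e3, e4, e5, e6, e7, e8, hqw, hqh', e9, e10, key]

/-- upper bounds of the table values of `|KK|` for `d = -π/120`, `ρ = π/20` -/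
theorem kkA (h : StTrg) :
    |KK (-(Real.pi / 120)) (Real.pi / 20) (-13)| ≤ 0.2474 ∧
    |KK (-(Real.pi / 120)) (Real.pi / 20) (-7)| ≤ 0.2937 ∧
    |KK (-(Real.pi / 120)) (Real.pi / 20) (-1)| ≤ 0.31378 ∧
    |KK (-(Real.pi / 120)) (Real.pi / 20) 5| ≤ 0.3036 ∧
    |KK (-(Real.pi / 120)) (Real.pi / 20) 11| ≤ 0.2652 ∧
    |KK (-(Real.pi / 120)) (Real.pi / 20) 17| ≤ 0.2066 := by
  refine ⟨?_, ?_, ?_, ?_, ?_, ?_⟩
  · refine KKb h _ _ (-13) (-467) (-39) 942641 (-852640) _ (by decide) (by decide) ?_ ?_ ?_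
    · push_cast; ring
    · push_cast; ring
    · norm_num
  · refine KKb h _ _ (-7) (-233) (-21) 983255 (-522499) _ (by decide) (by decide) ?_ ?_ ?_
    · push_cast; ring
    · push_cast; ring
    · norm_num
  · refine KKb h _ _ (-1) 1 (-3) 999657 (-78459) _ (by decide) (by decide) ?_ ?_ ?_
    · push_cast; ring
    · push_cast; ring
    · norm_num
  · refine KKb h _ _ 5 235 15 991445 382683 _ (by decide) (by decide) ?_ ?_ ?_
    · push_cast; ring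
    · push_cast; ring
    · norm_num
  · refine KKb h _ _ 11 469 33 958820 760406 _ (by decide) (by decide) ?_ ?_ ?_
    · push_cast; ring
    · push_cast; ring
    · norm_num
  · refine KKb h _ _ 17 703 51 902585 972370 _ (by decide) (by decide) ?_ ?_ ?_
    · push_cast; ring
    · push_cast; ring
    · norm_num

theorem hLOWA (h : StTrg) : StLowA := by
  intro x a z2 y0 x1 q qh hx hx' ha hx1 hy hqh hq hw
  obtain ⟨k13, k7, k1, k5, k11, k17⟩ := kkA h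
  obtain ⟨s1, s2⟩ := sqrt3_bd
  have p0 := abs_nonneg (KK (-(Real.pi / 120)) (Real.pi / 20) (-1))
  unfold LowF
  have t0 := abs_le.1 (cc h (-2) 6 998630 987688 (by decide) (by decide)
    (2 * -(Real.pi / 120)) (Real.pi / 20) (by push_cast; ring) (by push_cast; ring)
    (by norm_num [abs_le]) (by norm_num [abs_le]))
  have t1 := abs_le.1 (cc h 158 6 (-544639) 987688 (by decide) (by decide)
    (2 * Real.pi * (((1 : ℤ) : ℝ) + 1) / 3 + 2 * ((1 : ℤ) : ℝ) * -(Real.pi / 120))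
    (((1 : ℤ) : ℝ) * (Real.pi / 20)) (by push_cast; ring) (by push_cast; ring)
    (by norm_num [abs_le]) (by norm_num [abs_le]))
  have t2 := abs_le.1 (cc h 312 24 (-309017) 809017 (by decide) (by decide)
    (2 * ((4 : ℤ) : ℝ) * (Real.pi / 3 + -(Real.pi / 120)))
    (((4 : ℤ) : ℝ) * (Real.pi / 20)) (by push_cast; ring) (by push_cast; ring)
    (by norm_num [abs_le]) (by norm_num [abs_le]))
  have t3 := abs_le.1 (cc h 156 12 (-587785) 951057 (by decide) (by decide)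
    (2 * ((2 : ℤ) : ℝ) * (Real.pi / 3 + -(Real.pi / 120)))
    (((2 : ℤ) : ℝ) * (Real.pi / 20)) (by push_cast; ring) (by push_cast; ring)
    (by norm_num [abs_le]) (by norm_num [abs_le]))
  have t4 := abs_le.1 (cc h 78 6 (-453990) 987688 (by decide) (by decide)
    (2 * Real.pi / 3 + 2 * -(Real.pi / 120)) (Real.pi / 20) (by push_cast; ring)
    (by push_cast; ring) (by norm_num [abs_le]) (by norm_num [abs_le]))
  have t5 := abs_le.1 (cs h 79 3 (-477159) 78459 (by decide) (by decide)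
    (2 * Real.pi / 3 + -(Real.pi / 120)) (Real.pi / 20 / 2) (by push_cast; ring)
    (by push_cast; ring) (by norm_num [abs_le]) (by norm_num [abs_le]))
  have t6 := abs_le.1 (cs h 155 15 (-608761) 382683 (by decide) (by decide)
    (4 * Real.pi / 3 + 5 * -(Real.pi / 120)) (5 * (Real.pi / 20) / 2) (by push_cast; ring)
    (by push_cast; ring) (by norm_num [abs_le]) (by norm_num [abs_le]))
  have v4 : vC thA (-(Real.pi / 120)) (Real.pi / 20) 4 =
      19 / 20 * (1 / 10) * |KK (-(Real.pi / 120)) (Real.pi / 20) (-1)| / (4 * (9 / 4))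
      + 19 / 20 * (11 / 10) * |KK (-(Real.pi / 120)) (Real.pi / 20) 5| / (4 * 2)
      + 19 / 20 * (11 / 10) * |KK (-(Real.pi / 120)) (Real.pi / 20) 11| / (4 * (9 / 4))
      + 19 / 20 * (1 / 10) * |KK (-(Real.pi / 120)) (Real.pi / 20) 17| / (4 * (9 / 4)) := by
    norm_num [vC, aK, wt, thA]
  have v2 : vC thA (-(Real.pi / 120)) (Real.pi / 20) (-2) =
      19 / 20 * (1 / 10) * |KK (-(Real.pi / 120)) (Real.pi / 20) (-13)| / (4 * (31 / 4))
      + 19 / 20 * (11 / 10) * |KK (-(Real.pi / 120)) (Real.pi / 20) (-7)| / (4 * (31 / 4))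
      + 19 / 20 * (1 / 10) * |KK (-(Real.pi / 120)) (Real.pi / 20) 5| / (4 * (31 / 4)) := by
    norm_num [vC, aK, wt, thA]
  have b1' : bC thA (-(Real.pi / 120)) (Real.pi / 20) 1 =
      5 / 4 * (19 / 20 * (1 / 10) * |KK (-(Real.pi / 120)) (Real.pi / 20) (-7)|)
      + 2 * (19 / 20 * (11 / 10) * |KK (-(Real.pi / 120)) (Real.pi / 20) 5|)
      + 5 / 4 * (19 / 20 * (1 / 10) * |KK (-(Real.pi / 120)) (Real.pi / 20) 11|) := by
    norm_num [bC, aK, wt, thA]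
  refine coreA _ _ _ _ _ _ _ _ _ _ _ x a z2 y0 x1 q qh ?_ ?_ ?_ ?_ ?_ ?_ ?_ ?_ ?_ ?_ ?_ ?_ ?_
    hx hx' ha hx1 hqh hq hw
  · linarith [t0.1]
  · unfold FSc; linarith
  · unfold F1c; linarith
  · unfold F1c; linarith
  · rw [v4]; unfold sgm; linarith [t2.1, t2.2]
  · rw [v2]; unfold sgm; linarith [t3.1, t3.2]
  · unfold AA; linarith [t5.1, t5.2]
  · unfold BB; rw [abs_le]; constructor <;> linarith [t6.1, t6.2]
  · rw [b1']; unfold gam; linarith [t1.1, t1.2]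
  · unfold FSc; linarith
  · linarith [t4.1, t4.2]
  · linarith [t4.1, t4.2]
  · unfold K1; linarith

end Pool.Agent.Helper55.RC
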